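import Pool.Agent.helper84.HF.SpecH

/-!
# MP_07c750, project HALF, row `hf:HBS`: basic facts on the entropy of a function on a finite set
-/

set_option autoImplicit false

open Finset

namespace Pool.Agent.HF

open Classical in
/-- the entropy as an average over the points -/
theorem HBS_sum {α ι : Type} (X : Finset α) (f : α → ι) (hX : X.Nonempty) :
    H X f = (∑ x ∈ X, Real.log ((X.card : ℝ) / ((X.filter (fun y => f y = f x)).card : ℝ))) / X.card := by
  have hn : (0 : ℝ) < X.card := by exact_mod_cast hX.card_pos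
  have h1 := Finset.sum_comp (s := X) (fun i : ι => Real.log ((X.card : ℝ) / ((X.filter (fun y => f y = i)).card : ℝ))) f
  rw [h1, H, Finset.sum_div]
  refine Finset.sum_congr rfl fun i hi => ?_
  obtain ⟨x, hx, rfl⟩ := Finset.mem_image.mp hi
  have hc : (0 : ℝ) < ((X.filter (fun y => f y = f x)).card : ℝ) := by
    exact Nat.cast_pos.mpr (Finset.card_pos.mpr ⟨x, Finset.mem_filter.mpr ⟨hx, rfl⟩⟩)
  rw [Real.negMulLog, nsmul_eq_mul, Real.log_div hc.ne' hn.ne', Real.log_div hn.ne' hc.ne']
  ring

open Classical in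
theorem HBS_fib_pos {α ι : Type} (X : Finset α) (f : α → ι) {x : α} (hx : x ∈ X) :
    (0 : ℝ) < ((X.filter (fun y => f y = f x)).card : ℝ) := by
  exact Nat.cast_pos.mpr (Finset.card_pos.mpr ⟨x, Finset.mem_filter.mpr ⟨hx, rfl⟩⟩)

open Classical in
/-- a sum over the points which depends on the class only -/
theorem HBS_comp {α ι : Type} (X : Finset α) (f : α → ι) (F : ι → ℝ) :
    ∑ x ∈ X, F (f x) = ∑ i ∈ X.image f, ((X.filter (fun y => f y = i)).card : ℝ) * F i := by
  rw [Finset.sum_comp F f]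
  refine Finset.sum_congr rfl fun i _ => ?_
  rw [nsmul_eq_mul]

open Classical in
theorem HBS_inv {α ι : Type} (X : Finset α) (f : α → ι) :
    ∑ x ∈ X, (1 : ℝ) / ((X.filter (fun y => f y = f x)).card : ℝ) = ((X.image f).card : ℝ) := by
  rw [HBS_comp X f (fun i => (1 : ℝ) / ((X.filter (fun y => f y = i)).card : ℝ))]
  rw [Finset.card_eq_sum_ones, Nat.cast_sum]
  refine Finset.sum_congr rfl fun i hi => ?_
  obtain ⟨x, hx, rfl⟩ := Finset.mem_image.mp hi
  have hc := HBS_fib_pos X f hx
  rw [mul_one_div_cancel hc.ne', Nat.cast_one]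

open Classical in
theorem HBS_nonneg {α ι : Type} (X : Finset α) (f : α → ι) (hX : X.Nonempty) : 0 ≤ H X f := by
  rw [HBS_sum X f hX]
  refine div_nonneg (Finset.sum_nonneg fun x hx => ?_) (Nat.cast_nonneg _)
  have hc := HBS_fib_pos X f hx
  refine Real.log_nonneg ?_
  rw [le_div_iff₀ hc, one_mul]
  exact_mod_cast Finset.card_le_card (Finset.filter_subset _ _)

open Classical in
theorem HBS_le {α ι : Type} (X : Finset α) (f : α → ι) (hX : X.Nonempty) (T : Finset ι) (hT : ∀ x ∈ X, f x ∈ T) :
    H X f ≤ Real.log T.card := by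
  have hn : (0 : ℝ) < X.card := by exact_mod_cast hX.card_pos
  have him : X.image f ⊆ T := fun i hi => by
    obtain ⟨x, hx, rfl⟩ := Finset.mem_image.mp hi
    exact hT x hx
  have hK : ((X.image f).card : ℝ) ≤ T.card := by exact_mod_cast Finset.card_le_card him
  have hK0 : (0 : ℝ) < T.card := by
    obtain ⟨x, hx⟩ := hX
    exact_mod_cast Finset.card_pos.mpr ⟨f x, hT x hx⟩
  rw [HBS_sum X f hX, div_le_iff₀ hn]
  have h1 : ∀ x ∈ X, Real.log ((X.card : ℝ) / ((X.filter (fun y => f y = f x)).card : ℝ)) ≤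
      Real.log T.card + ((X.card : ℝ) / T.card * (1 / ((X.filter (fun y => f y = f x)).card : ℝ)) - 1) := by
    intro x hx
    have hc := HBS_fib_pos X f hx
    have h2 := Real.log_le_sub_one_of_pos (x := (X.card : ℝ) / T.card * (1 / ((X.filter (fun y => f y = f x)).card : ℝ)))
      (by positivity)
    have h3 : Real.log ((X.card : ℝ) / ((X.filter (fun y => f y = f x)).card : ℝ)) =
        Real.log T.card + Real.log ((X.card : ℝ) / T.card * (1 / ((X.filter (fun y => f y = f x)).card : ℝ))) := by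
      rw [← Real.log_mul hK0.ne' (by positivity)]
      congr 1
      field_simp
    linarith
  refine (Finset.sum_le_sum h1).trans ?_
  rw [Finset.sum_add_distrib, Finset.sum_sub_distrib, ← Finset.mul_sum, HBS_inv, Finset.sum_const, Finset.sum_const, nsmul_eq_mul, nsmul_eq_mul]
  have h4 : (X.card : ℝ) / T.card * ((X.image f).card : ℝ) ≤ X.card := by
    rw [div_mul_eq_mul_div, div_le_iff₀ hK0]
    exact mul_le_mul_of_nonneg_left hK hn.le
  linarith

open Classical in
theorem HBS_mono {α ι κ : Type} (X : Finset α) (f : α → ι) (g : α → κ) (hX : X.Nonempty)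
    (h : ∀ x ∈ X, ∀ y ∈ X, f x = f y → g x = g y) : H X g ≤ H X f := by
  have hn : (0 : ℝ) < X.card := by exact_mod_cast hX.card_pos
  rw [HBS_sum X f hX, HBS_sum X g hX]
  refine div_le_div_of_nonneg_right (Finset.sum_le_sum fun x hx => ?_) hn.le
  have hf := HBS_fib_pos X f hx
  have hg := HBS_fib_pos X g hx
  refine Real.log_le_log (by positivity) ?_
  refine div_le_div_of_nonneg_left hn.le hf ?_
  refine Nat.cast_le.mpr (Finset.card_le_card fun y hy => ?_)
  rw [Finset.mem_filter] at hy ⊢
  exact ⟨hy.1, h y hy.1 x hx hy.2⟩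

theorem HBS_proof : HBS_stmt := by
  intro α ι κ X f g hX
  refine ⟨HBS_nonneg X f hX, fun T hT => HBS_le X f hX T hT, fun hinj => ?_, fun h => HBS_mono X f g hX h⟩
  classical
  have hn : (0 : ℝ) < X.card := by exact_mod_cast hX.card_pos
  rw [HBS_sum X f hX, div_eq_iff hn.ne']
  have h1 : ∀ x ∈ X, Real.log ((X.card : ℝ) / ((X.filter (fun y => f y = f x)).card : ℝ)) = Real.log X.card := by
    intro x hx
    have h2 : X.filter (fun y => f y = f x) = {x} := by
      ext y
      rw [Finset.mem_filter, Finset.mem_singleton]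
      exact ⟨fun hy => hinj y hy.1 x hx hy.2, fun hy => by rw [hy]; exact ⟨hx, rfl⟩⟩
    rw [h2, Finset.card_singleton, Nat.cast_one, div_one]
  rw [Finset.sum_congr rfl h1, Finset.sum_const, nsmul_eq_mul, mul_comm]

end Pool.Agent.HF
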