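import Pool.Agent.helper4.HF.HBS

/-!
# MP_07c750, project HALF, row `hf:HSM`: submodularity of the entropy

General form `HSM_gen`: if `F₁ = (F₂, F₃)` up to bijections and `F₄` is a function of `F₂` and a function of `F₃` then `H F₁ + H F₄ ≤ H F₂ + H F₃`.
-/

set_option autoImplicit false

open Finset

namespace Pool.Agent.HF

open Classical in
/-- the counting inequality -/
theorem HSM_count {α A₁ A₂ A₃ A₄ : Type} (X : Finset α) (F₁ : α → A₁) (F₂ : α → A₂) (F₃ : α → A₃) (F₄ : α → A₄)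
    (e1 : ∀ x ∈ X, ∀ y ∈ X, F₁ y = F₁ x ↔ F₂ y = F₂ x ∧ F₃ y = F₃ x)
    (e2 : ∀ x ∈ X, ∀ y ∈ X, F₂ y = F₂ x → F₄ y = F₄ x) (e3 : ∀ x ∈ X, ∀ y ∈ X, F₃ y = F₃ x → F₄ y = F₄ x) :
    ∑ x ∈ X, (((X.filter (fun y => F₂ y = F₂ x)).card : ℝ) * ((X.filter (fun y => F₃ y = F₃ x)).card : ℝ)) /
      (((X.filter (fun y => F₁ y = F₁ x)).card : ℝ) * ((X.filter (fun y => F₄ y = F₄ x)).card : ℝ)) ≤ X.card := by
  set C : α → ℝ := fun x => ((X.filter (fun y => F₁ y = F₁ x)).card : ℝ) with hC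
  set D : α → ℝ := fun x => ((X.filter (fun y => F₄ y = F₄ x)).card : ℝ) with hD
  have h1 : ∀ x ∈ X, (((X.filter (fun y => F₂ y = F₂ x)).card : ℝ) * ((X.filter (fun y => F₃ y = F₃ x)).card : ℝ)) /
      (C x * D x) = ∑ y ∈ X, ∑ z ∈ X, (if F₂ y = F₂ x ∧ F₃ z = F₃ x then 1 / (C x * D x) else 0) := by
    intro x _
    have h2 : ∀ y ∈ X, ∑ z ∈ X, (if F₂ y = F₂ x ∧ F₃ z = F₃ x then 1 / (C x * D x) else 0) =
        if F₂ y = F₂ x then ((X.filter (fun y => F₃ y = F₃ x)).card : ℝ) * (1 / (C x * D x)) else 0 := by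
      intro y _
      by_cases hy : F₂ y = F₂ x
      · simp only [hy, true_and, if_true]
        rw [← Finset.sum_filter, Finset.sum_const, nsmul_eq_mul]
      · simp only [hy, false_and, if_false, Finset.sum_const_zero]
    rw [Finset.sum_congr rfl h2, ← Finset.sum_filter, Finset.sum_const, nsmul_eq_mul]
    ring
  rw [Finset.sum_congr rfl h1, Finset.sum_comm]
  have h3 : ∀ y ∈ X, ∑ x ∈ X, ∑ z ∈ X, (if F₂ y = F₂ x ∧ F₃ z = F₃ x then 1 / (C x * D x) else 0) ≤ 1 := by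
    intro y hy
    rw [Finset.sum_comm]
    have hDy : 0 < D y := Nat.cast_pos.mpr (Finset.card_pos.mpr ⟨y, Finset.mem_filter.mpr ⟨hy, rfl⟩⟩)
    have h4 : ∀ z ∈ X, ∑ x ∈ X, (if F₂ y = F₂ x ∧ F₃ z = F₃ x then 1 / (C x * D x) else 0) ≤
        if F₄ z = F₄ y then 1 / D y else 0 := by
      intro z hz
      rw [← Finset.sum_filter]
      set S := X.filter (fun x => F₂ y = F₂ x ∧ F₃ z = F₃ x) with hS
      rcases S.eq_empty_or_nonempty with he | ⟨x0, hx0⟩
      · rw [he, Finset.sum_empty]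
        split_ifs
        · positivity
        · exact le_rfl
      · have h5 : ∀ x ∈ S, 1 / (C x * D x) = 1 / ((S.card : ℝ) * D y) := by
          intro x hx
          have hx' := Finset.mem_filter.mp hx
          have hc : C x = (S.card : ℝ) := by
            have hset : X.filter (fun w => F₁ w = F₁ x) = S := by
              ext w
              rw [hS, Finset.mem_filter, Finset.mem_filter]
              constructor
              · rintro ⟨hw, ew⟩
                have ew' := (e1 x hx'.1 w hw).mp ew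
                exact ⟨hw, hx'.2.1.trans ew'.1.symm, hx'.2.2.trans ew'.2.symm⟩
              · rintro ⟨hw, e4, e5⟩
                exact ⟨hw, (e1 x hx'.1 w hw).mpr ⟨e4.symm.trans hx'.2.1, e5.symm.trans hx'.2.2⟩⟩
            rw [← hset]
          have hd : D x = D y := by
            have h6 : F₄ y = F₄ x := e2 x hx'.1 y hy hx'.2.1
            have hset : X.filter (fun w => F₄ w = F₄ x) = X.filter (fun w => F₄ w = F₄ y) := by
              rw [h6]
            change ((X.filter (fun w => F₄ w = F₄ x)).card : ℝ) = ((X.filter (fun w => F₄ w = F₄ y)).card : ℝ)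
            rw [hset]
          rw [hc, hd]
        have hx0' := Finset.mem_filter.mp hx0
        have h7 : F₄ z = F₄ y := (e3 x0 hx0'.1 z hz hx0'.2.2).trans (e2 x0 hx0'.1 y hy hx0'.2.1).symm
        rw [Finset.sum_congr rfl h5, Finset.sum_const, nsmul_eq_mul, if_pos h7]
        have hSc : (0 : ℝ) < S.card := Nat.cast_pos.mpr (Finset.card_pos.mpr ⟨x0, hx0⟩)
        rw [le_iff_lt_or_eq]
        right
        field_simp
    refine (Finset.sum_le_sum h4).trans ?_
    rw [← Finset.sum_filter, Finset.sum_const, nsmul_eq_mul]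
    exact (mul_one_div_cancel hDy.ne').le
  refine (Finset.sum_le_sum h3).trans ?_
  rw [Finset.sum_const, nsmul_eq_mul, mul_one]

open Classical in
theorem HSM_gen {α A₁ A₂ A₃ A₄ : Type} (X : Finset α) (F₁ : α → A₁) (F₂ : α → A₂) (F₃ : α → A₃) (F₄ : α → A₄) (hX : X.Nonempty)
    (e1 : ∀ x ∈ X, ∀ y ∈ X, F₁ y = F₁ x ↔ F₂ y = F₂ x ∧ F₃ y = F₃ x)
    (e2 : ∀ x ∈ X, ∀ y ∈ X, F₂ y = F₂ x → F₄ y = F₄ x) (e3 : ∀ x ∈ X, ∀ y ∈ X, F₃ y = F₃ x → F₄ y = F₄ x) :
    H X F₁ + H X F₄ ≤ H X F₂ + H X F₃ := by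
  have hn : (0 : ℝ) < X.card := Nat.cast_pos.mpr hX.card_pos
  rw [HBS_sum X F₁ hX, HBS_sum X F₂ hX, HBS_sum X F₃ hX, HBS_sum X F₄ hX, ← add_div, ← add_div]
  refine div_le_div_of_nonneg_right ?_ hn.le
  rw [← Finset.sum_add_distrib, ← Finset.sum_add_distrib]
  have h1 : ∀ x ∈ X, Real.log ((X.card : ℝ) / ((X.filter (fun y => F₁ y = F₁ x)).card : ℝ)) +
      Real.log ((X.card : ℝ) / ((X.filter (fun y => F₄ y = F₄ x)).card : ℝ)) ≤
      (Real.log ((X.card : ℝ) / ((X.filter (fun y => F₂ y = F₂ x)).card : ℝ)) +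
      Real.log ((X.card : ℝ) / ((X.filter (fun y => F₃ y = F₃ x)).card : ℝ))) +
      ((((X.filter (fun y => F₂ y = F₂ x)).card : ℝ) * ((X.filter (fun y => F₃ y = F₃ x)).card : ℝ)) /
      (((X.filter (fun y => F₁ y = F₁ x)).card : ℝ) * ((X.filter (fun y => F₄ y = F₄ x)).card : ℝ)) - 1) := by
    intro x hx
    have p1 := HBS_fib_pos X F₁ hx
    have p2 := HBS_fib_pos X F₄ hx
    have p3 := HBS_fib_pos X F₂ hx
    have p4 := HBS_fib_pos X F₃ hx
    have h2 := Real.log_le_sub_one_of_pos (div_pos (mul_pos p3 p4) (mul_pos p1 p2))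
    rw [Real.log_div (mul_pos p3 p4).ne' (mul_pos p1 p2).ne', Real.log_mul p3.ne' p4.ne', Real.log_mul p1.ne' p2.ne'] at h2
    rw [Real.log_div hn.ne' p1.ne', Real.log_div hn.ne' p2.ne', Real.log_div hn.ne' p3.ne', Real.log_div hn.ne' p4.ne']
    linarith
  refine (Finset.sum_le_sum h1).trans ?_
  rw [Finset.sum_add_distrib, Finset.sum_sub_distrib, Finset.sum_const, nsmul_eq_mul, mul_one]
  have h3 := HSM_count X F₁ F₂ F₃ F₄ e1 e2 e3
  linarith

theorem HSM_proof : HSM_stmt := by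
  intro α ι κ lam X f g h hX
  refine HSM_gen X (fun x => (f x, g x, h x)) (fun x => (f x, h x)) (fun x => (g x, h x)) h hX ?_ ?_ ?_
  · intro x _ y _
    simp only [Prod.mk.injEq]
    constructor
    · rintro ⟨h1, h2, h3⟩
      exact ⟨⟨h1, h3⟩, h2, h3⟩
    · rintro ⟨⟨h1, h3⟩, h2, _⟩
      exact ⟨h1, h2, h3⟩
  · intro x _ y _ he
    simp only [Prod.mk.injEq] at he
    exact he.2
  · intro x _ y _ he
    simp only [Prod.mk.injEq] at he
    exact he.2

end Pool.Agent.HF
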