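import Pool.Agent.helper4.HF.POR

/-!
# MP_07c750, project HALF, row `hf:NCH`: a node which is not nice carries little entropy
-/

set_option autoImplicit false

open Finset

namespace Pool.Agent.HF

/-- the pair form of the variance -/
theorem NCH_var (X : Finset ℕ) (hX : X.Nonempty) :
    ∑ u ∈ X, ((u : ℝ) - (∑ v ∈ X, (v : ℝ)) / X.card) ^ 2 = X.card * vp X := by
  have hn : (0 : ℝ) < X.card := Nat.cast_pos.mpr hX.card_pos
  set n : ℝ := (X.card : ℝ) with hn'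
  set S1 : ℝ := ∑ v ∈ X, (v : ℝ) with hS1
  set S2 : ℝ := ∑ v ∈ X, (v : ℝ) ^ 2 with hS2
  have h1 : ∑ u ∈ X, ((u : ℝ) - S1 / n) ^ 2 = S2 - S1 ^ 2 / n := by
    have h2 : ∀ u ∈ X, ((u : ℝ) - S1 / n) ^ 2 = (u : ℝ) ^ 2 - 2 * (S1 / n) * (u : ℝ) + (S1 / n) ^ 2 := fun u _ => by ring
    rw [Finset.sum_congr rfl h2, Finset.sum_add_distrib, Finset.sum_sub_distrib, ← Finset.mul_sum, Finset.sum_const, nsmul_eq_mul, ← hS1, ← hS2, ← hn']
    field_simp
    ring
  have h3 : ∑ u ∈ X, ∑ v ∈ X, ((u : ℝ) - v) ^ 2 = 2 * n * S2 - 2 * S1 ^ 2 := by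
    have h4 : ∀ u ∈ X, ∑ v ∈ X, ((u : ℝ) - v) ^ 2 = n * (u : ℝ) ^ 2 - 2 * S1 * (u : ℝ) + S2 := by
      intro u _
      have h5 : ∀ v ∈ X, ((u : ℝ) - v) ^ 2 = (u : ℝ) ^ 2 - 2 * (u : ℝ) * (v : ℝ) + (v : ℝ) ^ 2 := fun v _ => by ring
      rw [Finset.sum_congr rfl h5, Finset.sum_add_distrib, Finset.sum_sub_distrib, ← Finset.mul_sum, Finset.sum_const, nsmul_eq_mul, ← hS1, ← hS2, ← hn']
      ring
    rw [Finset.sum_congr rfl h4, Finset.sum_add_distrib, Finset.sum_sub_distrib, ← Finset.mul_sum, ← Finset.mul_sum, Finset.sum_const, nsmul_eq_mul, ← hS1, ← hS2, ← hn']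
    ring
  rw [h1, vp, h3, ← hn']
  field_simp

/-- points in an interval of length less than `2 l` lie in at most three consecutive cells of length `l` -/
theorem NCH_three (X : Finset ℕ) (l : ℕ) (hl : 0 < l) (hX : X.Nonempty) (h : ∀ u ∈ X, ∀ v ∈ X, u < v + 2 * l) :
    ∃ T : Finset ℕ, T.card ≤ 3 ∧ ∀ u ∈ X, u / l ∈ T := by
  obtain ⟨v, hv, hmin⟩ := Finset.exists_min_image X id hX
  refine ⟨Finset.Ico (v / l) (v / l + 3), by rw [Nat.card_Ico]; omega, fun u hu => ?_⟩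
  rw [Finset.mem_Ico]
  have h1 : v ≤ u := hmin u hu
  have h2 := h u hu v hv
  refine ⟨Nat.div_le_div_right h1, ?_⟩
  rw [Nat.div_lt_iff_lt_mul hl]
  have h3 : v < (v / l + 1) * l := Nat.lt_mul_of_div_lt (Nat.lt_succ_self _) hl
  nlinarith

theorem NCH_log3 : Real.log 3 ≤ 8 / 5 * Real.log 2 := by
  have h1 : Real.log ((3 : ℝ) ^ 5) ≤ Real.log ((2 : ℝ) ^ 8) := Real.log_le_log (by norm_num) (by norm_num)
  rw [Real.log_pow, Real.log_pow] at h1
  push_cast at h1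
  linarith

open Classical in
theorem NCH_proof (h2 : HCH_stmt) : NCH_stmt := by
  intro R N i p _ hiN hX hnic
  have hL : 0 < Real.log 2 := Real.log_pos (by norm_num)
  set X := nd R N i p with hXd
  have hn : (0 : ℝ) < X.card := Nat.cast_pos.mpr hX.card_pos
  set μ : ℝ := (∑ v ∈ X, (v : ℝ)) / X.card with hμ
  have hv : vp X < (4 : ℝ) ^ (N - i) / 2 ^ 96 := by
    unfold nic at hnic
    exact not_le.mp hnic
  have hvar := NCH_var X hX
  rw [← hμ] at hvar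
  set A : ℝ := (2 : ℝ) ^ (N - i) with hA
  have hA0 : 0 < A := by rw [hA]; positivity
  have hA2 : (4 : ℝ) ^ (N - i) = A ^ 2 := by
    rw [hA, ← pow_mul, mul_comm, pow_mul]
    norm_num
  rw [hA2] at hv
  -- the bad points
  obtain ⟨Q, hQ⟩ : ∃ Q : ℕ → Prop, ∀ u, Q u ↔ |(u : ℝ) - μ| < A / 2 ^ 32 := ⟨_, fun _ => Iff.rfl⟩
  set B := X.filter (fun u => ¬ Q u) with hB
  have hBc : (B.card : ℝ) * 2 ^ 32 ≤ X.card := by
    have h3 : (B.card : ℝ) * (A / 2 ^ 32) ^ 2 ≤ X.card * vp X := by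
      rw [← hvar, ← nsmul_eq_mul, ← Finset.sum_const]
      refine (Finset.sum_le_sum (g := fun u : ℕ => ((u : ℝ) - μ) ^ 2) fun u hu => ?_).trans
        (Finset.sum_le_sum_of_subset_of_nonneg (Finset.filter_subset (fun u => ¬ Q u) X) fun u _ _ => sq_nonneg _)
      have hu' := (Finset.mem_filter.mp hu).2
      rw [hQ, not_lt] at hu'
      calc (A / 2 ^ 32) ^ 2 ≤ |(u : ℝ) - μ| ^ 2 := pow_le_pow_left₀ (by positivity) hu' 2
        _ = ((u : ℝ) - μ) ^ 2 := sq_abs _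
    have h4 : (X.card : ℝ) * vp X ≤ X.card * (A ^ 2 / 2 ^ 96) := mul_le_mul_of_nonneg_left hv.le hn.le
    have h5 := h3.trans h4
    have h6 : (B.card : ℝ) * (A / 2 ^ 32) ^ 2 = (B.card : ℝ) * 2 ^ 32 * (A ^ 2 / 2 ^ 96) := by ring
    rw [h6] at h5
    exact le_of_mul_le_mul_right h5 (by positivity)
  -- the classes
  obtain ⟨W, hW⟩ : ∃ W : ℕ → Bool, ∀ u, W u = decide (Q u) := ⟨_, fun _ => rfl⟩
  obtain ⟨A', W', hW'⟩ : ∃ (A' : Type) (W' : ℕ → A'), ∀ u v, W' u = W' v ↔ W u = W v :=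
    ⟨Bool, W, fun u v => Iff.rfl⟩
  have h3 := POR_bit h2 X (px N (i + 32)) (fun _ : ℕ => (0 : ℕ)) W W' hX (fun x _ y _ => by
    rw [hW' y x]
    exact ⟨fun h => ⟨rfl, h⟩, fun h => h.2⟩)
  have h0 : H X (fun _ : ℕ => (0 : ℕ)) ≤ 0 := by
    have h4 := HBS_le X (fun _ : ℕ => (0 : ℕ)) hX {0} (fun _ _ => Finset.mem_singleton_self _)
    rwa [Finset.card_singleton, Nat.cast_one, Real.log_one] at h4
  have h4 : ∀ x ∈ X, H (X.filter (fun y => W' y = W' x)) (px N (i + 32)) ≤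
      Real.log 3 + 32 * Real.log 2 * (if ¬ Q x then (1 : ℝ) else 0) := by
    intro x hx
    by_cases hg : Q x
    · rw [if_neg (not_not.mpr hg), mul_zero, add_zero]
      have hne : (X.filter (fun y => W' y = W' x)).Nonempty := ⟨x, Finset.mem_filter.mpr ⟨hx, rfl⟩⟩
      have hl : (0 : ℕ) < 2 ^ (N - (i + 32)) := by positivity
      have hAl : A / 2 ^ 32 ≤ (2 : ℝ) ^ (N - (i + 32)) := by
        rw [div_le_iff₀ (by positivity), hA, ← pow_add]
        exact pow_le_pow_right₀ (by norm_num) (by omega)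
      have hmem : ∀ y ∈ X.filter (fun y => W' y = W' x), |(y : ℝ) - μ| < A / 2 ^ 32 := by
        intro y hy
        have h5 := (Finset.mem_filter.mp hy).2
        rw [hW', hW, hW, decide_eq_decide] at h5
        exact (hQ y).mp (h5.mpr hg)
      obtain ⟨T, hT, hT'⟩ := NCH_three (X.filter (fun y => W' y = W' x)) (2 ^ (N - (i + 32))) hl hne (fun u hu v hv => by
        have h5 := abs_lt.mp (hmem u hu)
        have h6 := abs_lt.mp (hmem v hv)
        have h7 : (u : ℝ) < v + 2 * (2 : ℝ) ^ (N - (i + 32)) := by linarith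
        exact_mod_cast h7)
      have h5 := HBS_le (X.filter (fun y => W' y = W' x)) (px N (i + 32)) hne T (fun y hy => hT' y hy)
      have hTpos : (0 : ℝ) < T.card := Nat.cast_pos.mpr (Finset.card_pos.mpr ⟨_, hT' x (Finset.mem_filter.mpr ⟨hx, rfl⟩)⟩)
      refine h5.trans (Real.log_le_log hTpos ?_)
      exact_mod_cast hT
    · rw [if_pos hg, mul_one]
      have hne : (X.filter (fun y => W' y = W' x)).Nonempty := ⟨x, Finset.mem_filter.mpr ⟨hx, rfl⟩⟩
      obtain ⟨T, hT, hT'⟩ := POR_dig N i 32 p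
      have h5 := HBS_le (X.filter (fun y => W' y = W' x)) (px N (i + 32)) hne T (fun y hy =>
        hT' y (Finset.mem_filter.mp (Finset.mem_filter.mp hy).1).2)
      have hTpos : (0 : ℝ) < T.card := Nat.cast_pos.mpr (Finset.card_pos.mpr ⟨_, hT' x (Finset.mem_filter.mp hx).2⟩)
      have h6 : (T.card : ℝ) ≤ (2 : ℝ) ^ 32 := by exact_mod_cast hT
      have h7 := Real.log_le_log hTpos h6
      rw [Real.log_pow] at h7
      have h8 : (0 : ℝ) ≤ Real.log 3 := Real.log_nonneg (by norm_num)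
      push_cast at h7
      linarith
  have h5 := Finset.sum_le_sum h4
  rw [Finset.sum_add_distrib, Finset.sum_const, nsmul_eq_mul, ← Finset.mul_sum, ← Finset.sum_filter, Finset.sum_const, nsmul_eq_mul, mul_one] at h5
  have h6 := div_le_div_of_nonneg_right h5 hn.le
  have h7 : ((X.card : ℝ) * Real.log 3 + 32 * Real.log 2 * (B.card : ℝ)) / X.card ≤ Real.log 3 + 32 * Real.log 2 / 2 ^ 32 := by
    rw [div_le_iff₀ hn]
    have h8 : 32 * Real.log 2 * (B.card : ℝ) ≤ 32 * Real.log 2 / 2 ^ 32 * X.card := by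
      have h9 := mul_le_mul_of_nonneg_left hBc (show (0 : ℝ) ≤ 32 * Real.log 2 / 2 ^ 32 by positivity)
      calc 32 * Real.log 2 * (B.card : ℝ) = 32 * Real.log 2 / 2 ^ 32 * ((B.card : ℝ) * 2 ^ 32) := by ring
        _ ≤ _ := h9
    linarith
  have h8 := h6.trans h7
  have h9 := NCH_log3
  have h10 : 32 * Real.log 2 / 2 ^ 32 ≤ 1 / 5 * Real.log 2 := by
    rw [div_le_iff₀ (by positivity)]
    nlinarith
  linarith

end Pool.Agent.HF
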