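import Pool.Agent.helper4.HF.HSM

/-!
# MP_07c750, project HALF, row `hf:POR`: porous digits
-/

set_option autoImplicit false

open Finset

namespace Pool.Agent.HF

open Classical in
/-- the chain rule in the form of an average over the points -/
theorem POR_chain (h2 : HCH_stmt) {α ι κ : Type} (X : Finset α) (f : α → ι) (g : α → κ) (hX : X.Nonempty) :
    H X (fun x => (f x, g x)) = H X g + (∑ x ∈ X, H (X.filter (fun y => g y = g x)) f) / X.card := by
  rw [h2 α ι κ X f g hX, HBS_comp X g (fun j => H (X.filter (fun y => g y = j)) f), Finset.sum_div]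
  congr 1
  refine Finset.sum_congr rfl fun j _ => ?_
  ring

open Classical in
/-- conditioning on a two valued function costs at most `log 2` -/
theorem POR_bit (h2 : HCH_stmt) {α ι κ A : Type} (X : Finset α) (f : α → ι) (g : α → κ) (b : α → Bool) (W : α → A) (hX : X.Nonempty)
    (hW : ∀ x ∈ X, ∀ y ∈ X, W y = W x ↔ g y = g x ∧ b y = b x) :
    H X f ≤ H X g + Real.log 2 + (∑ x ∈ X, H (X.filter (fun y => W y = W x)) f) / X.card := by
  have hn : (0 : ℝ) < X.card := Nat.cast_pos.mpr hX.card_pos
  have h3 : H X f ≤ H X (fun x => (f x, W x)) := HBS_mono X _ _ hX fun x _ y _ he => by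
    simp only [Prod.mk.injEq] at he
    exact he.1
  have h4 := POR_chain h2 X f W hX
  have h5 : H X W ≤ H X (fun x => (b x, g x)) := HBS_mono X _ _ hX fun x hx y hy he => by
    simp only [Prod.mk.injEq] at he
    exact (hW y hy x hx).mpr ⟨he.2, he.1⟩
  have h6 := POR_chain h2 X b g hX
  have h7 : (∑ x ∈ X, H (X.filter (fun y => g y = g x)) b) / X.card ≤ Real.log 2 := by
    rw [div_le_iff₀ hn]
    have h8 : ∀ x ∈ X, H (X.filter (fun y => g y = g x)) b ≤ Real.log 2 := by
      intro x hx
      have h9 := HBS_le (X.filter (fun y => g y = g x)) b ⟨x, Finset.mem_filter.mpr ⟨hx, rfl⟩⟩ Finset.univ (fun _ _ => Finset.mem_univ _)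
      rw [Finset.card_univ, Fintype.card_bool] at h9
      exact_mod_cast h9
    refine (Finset.sum_le_sum h8).trans ?_
    rw [Finset.sum_const, nsmul_eq_mul, mul_comm]
  linarith

/-- the digits of an element of a node -/
theorem POR_dig (N i s p : ℕ) :
    ∃ T : Finset ℕ, T.card ≤ 2 ^ s ∧ ∀ u : ℕ, px N i u = p → px N (i + s) u ∈ T := by
  unfold px
  rcases Nat.le_total (i + s) N with h | h
  · refine ⟨Finset.Ico (p * 2 ^ s) ((p + 1) * 2 ^ s), ?_, fun u hp => ?_⟩
    · rw [Nat.card_Ico, add_mul, one_mul, Nat.add_sub_cancel_left]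
    · have h2 : N - i = (N - (i + s)) + s := by omega
      rw [h2, pow_add, ← Nat.div_div_eq_div_mul] at hp
      have hs : 0 < 2 ^ s := by positivity
      rw [Finset.mem_Ico]
      constructor
      · rw [← hp]
        exact Nat.div_mul_le_self _ _
      · rw [← hp]
        exact Nat.lt_mul_of_div_lt (Nat.lt_succ_self _) hs
  · refine ⟨Finset.Ico (p * 2 ^ (N - i)) ((p + 1) * 2 ^ (N - i)), ?_, fun u hp => ?_⟩
    · rw [Nat.card_Ico, add_mul, one_mul, Nat.add_sub_cancel_left]
      exact Nat.pow_le_pow_right (by norm_num) (by omega)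
    · have h2 : N - (i + s) = 0 := by omega
      rw [h2, pow_zero, Nat.div_one, Finset.mem_Ico]
      have hs : 0 < 2 ^ (N - i) := by positivity
      constructor
      · rw [← hp]
        exact Nat.div_mul_le_self _ _
      · rw [← hp]
        exact Nat.lt_mul_of_div_lt (Nat.lt_succ_self _) hs

open Classical in
theorem POR_proof (h2 : HCH_stmt) : POR_stmt := by
  intro R N m j G hR _ _ hG
  have hn : (0 : ℝ) < R.card := Nat.cast_pos.mpr hR.card_pos
  have hL : 0 < Real.log 2 := Real.log_pos (by norm_num)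
  obtain ⟨A, W, hW⟩ : ∃ (A : Type) (W : ℕ → A), ∀ u v, W u = W v ↔ px N j u = px N j v ∧ decide (G u j) = decide (G v j) :=
    ⟨ℕ × Bool, fun u => (px N j u, decide (G u j)), fun u v => by simp only [Prod.mk.injEq]⟩
  have h3 := POR_bit h2 R (px N (j + m)) (px N j) (fun u => decide (G u j)) W hR
    (fun x _ y _ => hW y x)
  have h4 : ∀ x ∈ R, H (R.filter (fun y => W y = W x)) (px N (j + m)) ≤
      3 / 4 * (m * Real.log 2) + 1 / 4 * (m * Real.log 2) * (if ¬ G x j then (1 : ℝ) else 0) := by
    intro x hx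
    by_cases hg : G x j
    · rw [if_neg (not_not.mpr hg), mul_zero, add_zero]
      have h5 := HBS_le (R.filter (fun y => W y = W x)) (px N (j + m))
        ⟨x, Finset.mem_filter.mpr ⟨hx, rfl⟩⟩ ((R.filter (fun u => G u j ∧ px N j u = px N j x)).image (px N (j + m))) (fun y hy => by
          rw [Finset.mem_filter, hW, decide_eq_decide] at hy
          exact Finset.mem_image.mpr ⟨y, Finset.mem_filter.mpr ⟨hy.1, hy.2.2.mpr hg, hy.2.1⟩, rfl⟩)
      refine h5.trans ?_
      have h6 := hG (px N j x)
      set V := ((R.filter (fun u => G u j ∧ px N j u = px N j x)).image (px N (j + m))).card with hV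
      have hVpos : (0 : ℝ) < V := by
        rw [hV]
        exact Nat.cast_pos.mpr (Finset.card_pos.mpr ⟨px N (j + m) x, Finset.mem_image.mpr ⟨x, Finset.mem_filter.mpr ⟨hx, hg, rfl⟩, rfl⟩⟩)
      have h7 : ((V : ℝ)) ^ 4 ≤ (2 : ℝ) ^ (3 * m) := by exact_mod_cast h6
      have h8 := Real.log_le_log (pow_pos hVpos 4) h7
      rw [Real.log_pow, Real.log_pow] at h8
      push_cast at h8
      linarith
    · rw [if_pos hg, mul_one]
      obtain ⟨T, hT, hT'⟩ := POR_dig N j m (px N j x)
      have h5 := HBS_le (R.filter (fun y => W y = W x)) (px N (j + m))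
        ⟨x, Finset.mem_filter.mpr ⟨hx, rfl⟩⟩ T (fun y hy => by
          rw [Finset.mem_filter, hW] at hy
          exact hT' y hy.2.1)
      refine h5.trans ?_
      have hTpos : (0 : ℝ) < T.card := Nat.cast_pos.mpr (Finset.card_pos.mpr ⟨_, hT' x rfl⟩)
      have h7 : ((T.card : ℝ)) ≤ (2 : ℝ) ^ m := by exact_mod_cast hT
      have h8 := Real.log_le_log hTpos h7
      rw [Real.log_pow] at h8
      linarith
  have h5 := Finset.sum_le_sum h4
  rw [Finset.sum_add_distrib, Finset.sum_const, nsmul_eq_mul, ← Finset.mul_sum, ← Finset.sum_filter, Finset.sum_const, nsmul_eq_mul, mul_one] at h5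
  have h6 := div_le_div_of_nonneg_right h5 hn.le
  have h7 : ((R.card : ℝ) * (3 / 4 * (m * Real.log 2)) + 1 / 4 * (m * Real.log 2) * ((R.filter (fun u => ¬ G u j)).card : ℝ)) / R.card =
      3 / 4 * (m * Real.log 2) + 1 / 4 * (m * Real.log 2) * (((R.filter (fun u => ¬ G u j)).card : ℝ) / R.card) := by
    field_simp
  rw [h7] at h6
  unfold hh
  linarith

end Pool.Agent.HF
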